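import Pool.Agent.helper17.SG.SpecB

/-! sg: B01: basic facts about the action. -/

set_option autoImplicit false

open MeasureTheory Set Metric Filter Topology
open scoped ENNReal NNReal ComplexConjugate

namespace Pool.Agent.SG

theorem B01_den (a b z : ℂ) (h : ‖a‖ ^ 2 - ‖b‖ ^ 2 = 1) (hz : ‖z‖ ≤ 1) :
    conj b * z + conj a ≠ 0 := by
  intro h0
  have h1 : conj a = -(conj b * z) := by
    rw [add_comm] at h0
    exact eq_neg_of_add_eq_zero_left h0
  have h2 : ‖a‖ ≤ ‖b‖ := by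
    have h3 := congrArg norm h1
    rw [norm_neg, norm_mul, RCLike.norm_conj, RCLike.norm_conj] at h3
    rw [h3]
    have := mul_le_mul_of_nonneg_left hz (norm_nonneg b)
    linarith
  have h3 : ‖a‖ ^ 2 ≤ ‖b‖ ^ 2 := pow_le_pow_left₀ (norm_nonneg _) h2 2
  linarith

theorem B01_id (a b z : ℂ) : ‖conj b * z + conj a‖ ^ 2 - ‖a * z + b‖ ^ 2 =
    (‖a‖ ^ 2 - ‖b‖ ^ 2) * (1 - ‖z‖ ^ 2) := by
  simp only [Complex.sq_norm, Complex.normSq_apply, Complex.add_re, Complex.add_im,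
    Complex.mul_re, Complex.mul_im, Complex.conj_re, Complex.conj_im]
  ring

theorem B01_inj (a b z w : ℂ) (h : ‖a‖ ^ 2 - ‖b‖ ^ 2 = 1) (hz : ‖z‖ ≤ 1) (hw : ‖w‖ ≤ 1)
    (he : mob a b z = mob a b w) : z = w := by
  unfold mob at he
  rw [div_eq_div_iff (B01_den a b z h hz) (B01_den a b w h hw)] at he
  have h1 : (a * conj a - b * conj b) * (z - w) = 0 := by
    have : (a * conj a - b * conj b) * (z - w) =
        (a * z + b) * (conj b * w + conj a) - (a * w + b) * (conj b * z + conj a) := by ring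
    rw [this, he, sub_self]
  have h2 : a * conj a - b * conj b = 1 := by
    rw [Complex.mul_conj, Complex.mul_conj, Complex.normSq_eq_norm_sq, Complex.normSq_eq_norm_sq]
    exact_mod_cast h
  rw [h2, one_mul] at h1
  exact sub_eq_zero.1 h1

theorem B01_le (a b z : ℂ) (h : ‖a‖ ^ 2 - ‖b‖ ^ 2 = 1) (hz : ‖z‖ ≤ 1) : ‖mob a b z‖ ≤ 1 := by
  have h0 := B01_den a b z h hz
  have h1 := B01_id a b z
  unfold mob
  rw [norm_div, div_le_one (norm_pos_iff.2 h0)]
  refine le_of_sq_le_sq ?_ (norm_nonneg _)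
  rw [h] at h1
  have h2 : ‖z‖ ^ 2 ≤ 1 := pow_le_one₀ (norm_nonneg _) hz
  linarith

theorem B01 : B01_stmt := by
  intro Γ _ A
  have hle : ∀ γ z, ‖z‖ ≤ 1 → ‖A.act γ z‖ ≤ 1 := fun γ z hz => B01_le _ _ z (A.norm_eq γ) hz
  have hmul : ∀ γ δ z, ‖z‖ ≤ 1 → A.act (γ * δ) z = A.act γ (A.act δ z) :=
    fun γ δ z hz => A.map_mul γ δ z hz
  have hone : ∀ z, ‖z‖ ≤ 1 → A.act 1 z = z := by
    intro z hz
    have h1 := hmul 1 1 z hz
    rw [mul_one] at h1
    exact B01_inj _ _ _ _ (A.norm_eq 1) (hle 1 z hz) hz h1.symm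
  refine ⟨hle, ?_, ?_, hone, hmul, ?_, ?_, ?_, ?_, ?_⟩
  · intro γ z hz
    have h0 := B01_den (A.a γ) (A.b γ) z (A.norm_eq γ) hz.le
    have h1 := B01_id (A.a γ) (A.b γ) z
    unfold DiscRep.act mob
    rw [norm_div, div_lt_one (norm_pos_iff.2 h0)]
    refine lt_of_pow_lt_pow_left₀ 2 (norm_nonneg _) ?_
    rw [A.norm_eq γ] at h1
    have h2 : ‖z‖ ^ 2 < 1 := pow_lt_one₀ (norm_nonneg _) hz (by norm_num)
    linarith
  · intro γ z hz
    have h0 := B01_den (A.a γ) (A.b γ) z (A.norm_eq γ) hz.le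
    have h1 := B01_id (A.a γ) (A.b γ) z
    unfold DiscRep.act mob
    rw [norm_div, div_eq_one_iff_eq (norm_ne_zero_iff.2 h0)]
    rw [hz] at h1
    have h2 : ‖A.a γ * z + A.b γ‖ ^ 2 = ‖conj (A.b γ) * z + conj (A.a γ)‖ ^ 2 := by linarith
    exact (sq_eq_sq₀ (norm_nonneg _) (norm_nonneg _)).1 h2
  · intro γ z hz
    rw [← hmul _ _ z hz, inv_mul_cancel, hone z hz]
  · intro γ z hz
    rw [← hmul _ _ z hz, mul_inv_cancel, hone z hz]
  · intro γ
    unfold DiscRep.act mob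
    fun_prop
  · intro γ
    unfold DiscRep.act mob
    refine ContinuousOn.div (by fun_prop) (by fun_prop) ?_
    intro z hz
    rw [mem_closedBall_zero_iff] at hz
    exact B01_den _ _ z (A.norm_eq γ) hz
  · intro γ
    unfold DiscRep.act mob
    refine DifferentiableOn.div (by fun_prop) (by fun_prop) ?_
    intro z hz
    rw [mem_ball_zero_iff] at hz
    exact B01_den _ _ z (A.norm_eq γ) hz.le

end Pool.Agent.SG
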