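import Pool.Agent.helper48.SG.SpecH

/-! sg: H08: balayage for the harmonic measures of sets far from `u`. -/

set_option autoImplicit false

open MeasureTheory Set Metric Filter Topology
open scoped ENNReal NNReal ComplexConjugate

namespace Pool.Agent.SG

theorem H08_lam : IsProbabilityMeasure lam := by
  constructor
  unfold lam
  rw [Measure.smul_apply, Measure.map_apply (measurable_circleMap 0 1) MeasurableSet.univ,
    Set.preimage_univ, Measure.restrict_apply_univ, Real.volume_Ioc, sub_zero, smul_eq_mul]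
  exact ENNReal.inv_mul_cancel (by simp [Real.pi_pos]) ENNReal.ofReal_ne_top

theorem H08 (hH01 : H01_stmt) (hH02 : H02_stmt) (hB14 : B14_stmt) (hM01 : M01_stmt)
    (hP08 : P08_stmt) : H08_stmt := by
  intro Γ _ A W ν C hC u c t E hu hc htc hE hEf x
  obtain ⟨hinf, -, -, -, hup, -, -, -⟩ := hH01 Γ A W ν C hC
  obtain ⟨hpr, -, -, -, -, hharm⟩ := hM01 Γ A W ν hC.stat
  have := hinf
  have := H08_lam
  have hC1 : 1 ≤ C := hC.one
  refine hP08 Γ W {y | A.Hu u y ≤ t} (fun y => nux A ν y E) (hharm E hE)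
    ⟨1, ENNReal.one_ne_top, fun y => ?_⟩ ?_ x
  · have := hpr y
    exact prob_le_one
  intro ε hε
  by_cases htop : ε = ⊤
  · subst htop
    have : {x | x ∈ {y | A.Hu u y ≤ t} ∧ (⊤ : ℝ≥0∞) < nux A ν x E} = ∅ := by
      ext y
      simp
    rw [this]
    exact Set.finite_empty
  have hε0 : 0 < ε.toReal := ENNReal.toReal_pos hε htop
  refine ((hB14 Γ A).2.2 hC.disc (ε.toReal * c ^ 2 / (2 * C)) (by positivity)).subset ?_
  rintro y ⟨hy, hεy⟩
  have h1 := hup y E hE
  obtain ⟨-, -, h2, -, h3, -⟩ := hH02 Γ A u c t y E hu hc htc hy hE hEf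
  have h4 : nux A ν y E ≤ ENNReal.ofReal (C * (2 * A.kk y * (1 / c ^ 2))) := by
    have hk : 0 ≤ A.kk y := by
      by_contra hneg
      push Not at hneg
      have : lax A y E = 0 := by
        have h5 : ENNReal.ofReal (2 * A.kk y) = 0 := ENNReal.ofReal_of_nonpos (by linarith)
        rw [h5, zero_mul] at h2
        exact le_antisymm h2 zero_le
      rw [this, mul_zero] at h1
      exact absurd (hεy.trans_le h1) (by simp)
    calc nux A ν y E ≤ ENNReal.ofReal C * lax A y E := h1
      _ ≤ ENNReal.ofReal C * (ENNReal.ofReal (2 * A.kk y) *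
            (ENNReal.ofReal (1 / c ^ 2) * 1)) := by
          gcongr
          refine h2.trans ?_
          gcongr
          refine h3.trans ?_
          gcongr
          exact prob_le_one
      _ = ENNReal.ofReal (C * (2 * A.kk y * (1 / c ^ 2))) := by
          rw [mul_one, ← ENNReal.ofReal_mul (by linarith), ← ENNReal.ofReal_mul (by linarith)]
  have h5 : ε.toReal < C * (2 * A.kk y * (1 / c ^ 2)) := by
    have h6 := hεy.trans_le h4
    exact (ENNReal.lt_ofReal_iff_toReal_lt htop).1 h6
  show ε.toReal * c ^ 2 / (2 * C) ≤ A.kk y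
  rw [div_le_iff₀ (by positivity)]
  have h7 : C * (2 * A.kk y * (1 / c ^ 2)) * c ^ 2 = A.kk y * (2 * C) := by
    field_simp
  rw [← h7]
  exact mul_le_mul_of_nonneg_right h5.le (by positivity)

end Pool.Agent.SG
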